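import Pool.Agent.D0H90.SM.Stm3

set_option autoImplicit false

/-!
# Project SM, module 16 (EXTB)
-/

namespace Pool.Agent.D0H3.SM

open MvPolynomial Matrix Pool.Agent.D0H90.SM

universe u

section
variable {k : Type u} [Field k] {n d : ℕ}

/-- The substitution `𝓔 ↦ B 𝓔`, `y ↦ y`. -/
noncomputable def subst (n d : ℕ) {k : Type u} [Field k] (B : Matrix (Fin n) (Fin n) k) :
    PP n d k →ₐ[k] PP n d k :=
  aeval (Sum.elim (fun p : Fin n × Fin n => ∑ l, C (B p.1 l) * X (Sum.inl (l, p.2)))
    (fun ρ : Rest n d => X (Sum.inr ρ)))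

theorem subst_inl (B : Matrix (Fin n) (Fin n) k) (i j : Fin n) :
    subst n d B (X (Sum.inl (i, j))) = ∑ l, C (B i l) * X (Sum.inl (l, j)) := by
  rw [subst, aeval_X]; rfl

theorem subst_inr (B : Matrix (Fin n) (Fin n) k) (ρ : Rest n d) :
    subst n d B (X (Sum.inr ρ)) = X (Sum.inr ρ) := by
  rw [subst, aeval_X]; rfl

theorem subst_C (B : Matrix (Fin n) (Fin n) k) (t : k) :
    subst n d B (C t) = C t := by
  rw [subst, ← algebraMap_eq, AlgHom.commutes]

theorem subst_comp (B B' : Matrix (Fin n) (Fin n) k) (h : B' * B = 1) :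
    (subst n d B).comp (subst n d B') = AlgHom.id k _ := by
  apply MvPolynomial.algHom_ext
  rintro (⟨i, j⟩ | ρ)
  · rw [AlgHom.comp_apply, subst_inl, map_sum]
    simp only [map_mul, subst_C, subst_inl, AlgHom.id_apply]
    simp only [Finset.mul_sum, ← mul_assoc, ← C_mul]
    rw [Finset.sum_comm]
    simp only [← Finset.sum_mul, ← map_sum]
    have : ∀ m, ∑ l, B' i l * B l m = (1 : Matrix (Fin n) (Fin n) k) i m := by
      intro m; rw [← h, Matrix.mul_apply]
    simp only [this]
    rw [Finset.sum_eq_single i]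
    · simp
    · intro m _ hm; rw [Matrix.one_apply_ne hm.symm]; simp
    · intro h; exact absurd (Finset.mem_univ _) h
  · rw [AlgHom.comp_apply, subst_inr, subst_inr, AlgHom.id_apply]

/-- The automorphism `𝓔 ↦ A' 𝓔`. -/
noncomputable def substE (n d : ℕ) {k : Type u} [Field k] (A A' : Matrix (Fin n) (Fin n) k)
    (h : A * A' = 1) : PP n d k ≃ₐ[k] PP n d k :=
  AlgEquiv.ofAlgHom (subst n d A') (subst n d A) (subst_comp A' A h)
    (subst_comp A A' (mul_eq_one_comm.mp h))

/-- Its extension to the fraction field. -/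
noncomputable def psi (n d : ℕ) {k : Type u} [Field k] (A A' : Matrix (Fin n) (Fin n) k)
    (h : A * A' = 1) : LL n d k ≃+* LL n d k :=
  IsFractionRing.ringEquivOfRingEquiv (substE n d A A' h).toRingEquiv

theorem psi_alg (A A' : Matrix (Fin n) (Fin n) k) (h : A * A' = 1) (P : PP n d k) :
    psi n d A A' h (algebraMap _ _ P) = algebraMap _ _ (subst n d A' P) := by
  rw [psi, IsFractionRing.ringEquivOfRingEquiv_algebraMap]; rfl

theorem psi_k (A A' : Matrix (Fin n) (Fin n) k) (h : A * A' = 1) (t : k) :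
    psi n d A A' h (algebraMap k _ t) = algebraMap k _ t := by
  rw [IsScalarTower.algebraMap_apply k (PP n d k) (LL n d k), psi_alg, algebraMap_eq, subst_C]

theorem psi_genE (A A' : Matrix (Fin n) (Fin n) k) (h : A * A' = 1) :
    (genE n d k).map (psi n d A A' h) = A'.map (algebraMap k (LL n d k)) * genE n d k := by
  ext i j
  rw [Matrix.map_apply, genE, Matrix.of_apply, psi_alg, subst_inl, map_sum, Matrix.mul_apply]
  refine Finset.sum_congr rfl fun l _ => ?_
  rw [map_mul, Matrix.map_apply, Matrix.of_apply,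
    IsScalarTower.algebraMap_apply k (PP n d k) (LL n d k), algebraMap_eq]

theorem psi_geny (A A' : Matrix (Fin n) (Fin n) k) (h : A * A' = 1) (c : Cf n d → k) (a : Cf n d) :
    psi n d A A' h (geny c a) = geny c a := by
  rw [geny, psi_alg]
  congr 1
  rw [glue]
  split
  · exact subst_C _ _
  · exact subst_inr _ _

theorem map_inv_matrix {K L : Type*} [Field K] [Field L] (φ : K →+* L)
    (M : Matrix (Fin n) (Fin n) K) : M⁻¹.map φ = (M.map φ)⁻¹ := by
  by_cases hM : IsUnit M.det
  · symm
    apply Matrix.inv_eq_right_inv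
    rw [← Matrix.map_mul, Matrix.mul_nonsing_inv _ hM, Matrix.map_one φ (map_zero φ) (map_one φ)]
  · rw [Matrix.nonsing_inv_apply_not_isUnit _ hM, Matrix.nonsing_inv_apply_not_isUnit]
    · ext i j; simp
    · have : (M.map φ).det = φ M.det := (RingHom.map_det φ M).symm
      rw [this]
      intro h'
      apply hM
      rw [isUnit_iff_ne_zero] at *
      intro h0; apply h'; rw [h0, map_zero]

theorem conj_conj (hB : S_BASE.{u}) (K : Type u) [Field K] [Infinite K]
    (A A' B B' : Matrix (Fin n) (Fin n) K) (c : Cf n d → K) :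
    conj (B * A) (A' * B') c = conj A A' (conj B B' c) := by
  apply hB.2.1
  intro x
  rw [hB.1, hB.1, hB.1, Matrix.mulVec_mulVec, Matrix.mulVec_mulVec]

theorem psi_genfL (hB : S_BASE.{u}) [CharZero k] (A A' : Matrix (Fin n) (Fin n) k)
    (h : A * A' = 1) (c : Cf n d → k) (a : Cf n d) :
    psi n d A A' h (genfL c a) =
      conj (A.map (algebraMap k (LL n d k))) (A'.map (algebraMap k (LL n d k))) (genfL c) a := by
  have : CharZero (LL n d k) := charZero_of_injective_algebraMap
    (algebraMap k (LL n d k)).injective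
  have h5 := congrFun (hB.2.2.2.2.1 (LL n d k) (LL n d k) (psi n d A A' h).toRingHom n d
    (geny c) (genE n d k)⁻¹ (genE n d k)) a
  have hy : (fun a => (psi n d A A' h).toRingHom (geny c a)) = geny c := by
    ext a; exact psi_geny A A' h c a
  have hE : (genE n d k).map (psi n d A A' h).toRingHom =
      A'.map (algebraMap k (LL n d k)) * genE n d k := psi_genE A A' h
  have hinv : (A'.map (algebraMap k (LL n d k)))⁻¹ = A.map (algebraMap k (LL n d k)) := by
    apply Matrix.inv_eq_left_inv
    rw [← Matrix.map_mul, h, Matrix.map_one _ (map_zero _) (map_one _)]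
  rw [hy, map_inv_matrix, hE, Matrix.mul_inv_rev, hinv] at h5
  have : psi n d A A' h (genfL c a) = (psi n d A A' h).toRingHom (genfL c a) := rfl
  rw [this, genfL, ← h5, conj_conj hB]

end

/-- EXTB. -/
theorem t_EXTB (hB : S_BASE.{u}) : S_EXTB.{u} := by
  intro k _ _ n d c A A' h
  refine ⟨IsAlgClosure.equivOfEquiv (OM n d k) (OM n d k) (psi n d A A' h), ?_, ?_⟩
  · intro t
    rw [IsScalarTower.algebraMap_apply k (LL n d k) (OM n d k),
      IsAlgClosure.equivOfEquiv_algebraMap, psi_k]
  · intro a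
    have h5 := congrFun (hB.2.2.2.2.1 (LL n d k) (OM n d k) (algebraMap (LL n d k) (OM n d k)) n d
      (genfL c) (A.map (algebraMap k (LL n d k))) (A'.map (algebraMap k (LL n d k)))) a
    rw [genf, IsAlgClosure.equivOfEquiv_algebraMap, psi_genfL hB, ← h5]
    have e1 : ∀ B : Matrix (Fin n) (Fin n) k, (B.map (algebraMap k (LL n d k))).map
        (algebraMap (LL n d k) (OM n d k)) = B.map (algebraMap k (OM n d k)) := by
      intro B; ext i j
      rw [Matrix.map_apply, Matrix.map_apply, Matrix.map_apply,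
        ← IsScalarTower.algebraMap_apply k (LL n d k) (OM n d k)]
    rw [e1, e1]
    rfl

end Pool.Agent.D0H3.SM
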