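import Pool.Agent.D0H90.SM.Stm3

set_option autoImplicit false

/-!
# Project SM, module 18 (SOLI)
-/

namespace Pool.Agent.D0H3.SM

open MvPolynomial Matrix Pool.Agent.D0H90.SM

universe u

section
variable {n d : ℕ}

theorem ev_map {R S : Type*} [CommRing R] [CommRing S] (φ : R →+* S) (c : Cf n d → R)
    (x : Fin n → R) (i : Fin n) :
    ev (fun a => φ (c a)) (fun l => φ (x l)) i = φ (ev c x i) := by
  simp only [ev, mon, map_sum, map_mul, map_prod, map_pow]

/-- Strong nondegeneracy is preserved by ring homomorphisms. -/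
theorem strong_map {O S : Type*} [CommRing O] [CommRing S] (φ : O →+* S) {c : Cf n d → O}
    (h : Strong c) : Strong (fun a => φ (c a)) := by
  obtain ⟨M, hM⟩ := h
  refine ⟨M, fun l => ?_⟩
  have h1 := Ideal.mem_map_of_mem (MvPolynomial.map φ) (hM l)
  rw [Ideal.map_span, map_pow, MvPolynomial.map_X] at h1
  refine Ideal.span_mono ?_ h1
  rintro _ ⟨_, ⟨i, rfl⟩, rfl⟩
  refine ⟨i, ?_⟩
  rw [← ev_map (MvPolynomial.map φ)]
  simp only [MvPolynomial.map_C, MvPolynomial.map_X]

variable {k : Type u} [Field k]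

/-- The kernel of the evaluation at `v`. -/
noncomputable def ker (v : Cf n d → k) : Ideal (Pol n d k) := RingHom.ker (eval v)

instance (v : Cf n d → k) : (ker v).IsPrime := by
  unfold ker; exact RingHom.ker_isPrime _

theorem mem_compl (v : Cf n d → k) (Q : Pol n d k) : Q ∈ (ker v).primeCompl ↔ eval v Q ≠ 0 := by
  show Q ∉ ker v ↔ _
  rw [ker, RingHom.mem_ker]

/-- The local ring of `V` at `v`. -/
abbrev Loc (v : Cf n d → k) : Type u := Localization.AtPrime (ker v)

/-- The evaluation of the local ring. -/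
noncomputable def evL (v : Cf n d → k) : Loc v →+* k :=
  IsLocalization.lift (M := (ker v).primeCompl) (g := (eval v : Pol n d k →+* k)) (by
    rintro ⟨Q, hQ⟩
    exact IsUnit.mk0 _ ((mem_compl v Q).mp hQ))

theorem evL_alg (v : Cf n d → k) (P : Pol n d k) : evL v (algebraMap _ _ P) = eval v P := by
  rw [evL, IsLocalization.lift_eq]

/-- The homomorphism `O → OM`. -/
noncomputable def thL (c v : Cf n d → k) (hth : Function.Injective (theta c)) : Loc v →+* OM n d k :=
  IsLocalization.lift (M := (ker v).primeCompl)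
    (g := ((algebraMap (LL n d k) (OM n d k)).comp (theta c).toRingHom : Pol n d k →+* OM n d k)) (by
    rintro ⟨Q, hQ⟩
    apply IsUnit.mk0
    have hQ0 : Q ≠ 0 := by
      rintro rfl
      exact (mem_compl v 0).mp hQ (map_zero _)
    rw [RingHom.comp_apply, Ne, map_eq_zero]
    intro h0
    exact hQ0 (hth (h0.trans (map_zero _).symm)))

theorem thL_alg (c v : Cf n d → k) (hth : Function.Injective (theta c)) (P : Pol n d k) :
    thL c v hth (algebraMap _ _ P) = thetaO c P := by
  rw [thL, IsLocalization.lift_eq]; rfl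

theorem thL_mem (c v : Cf n d → k) (hth : Function.Injective (theta c)) (z : Loc v) :
    thL c v hth z ∈ Ov c v := by
  obtain ⟨P, ⟨Q, hQ⟩, rfl⟩ := IsLocalization.exists_mk'_eq (ker v).primeCompl z
  have hQ' := (mem_compl v Q).mp hQ
  have h1 : thL c v hth (IsLocalization.mk' (Loc v) P ⟨Q, hQ⟩) =
      thetaO c P * (thetaO c Q)⁻¹ := by
    have hu : thetaO c Q ≠ 0 := by
      have hQ0 : Q ≠ 0 := by rintro rfl; exact hQ' (map_zero _)
      rw [thetaO, Ne, map_eq_zero]
      intro h0
      exact hQ0 (hth (h0.trans (map_zero _).symm))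
    rw [eq_mul_inv_iff_mul_eq₀ hu, ← thL_alg c v hth Q, ← thL_alg c v hth P, ← map_mul]
    congr 1
    exact IsLocalization.mk'_spec (Loc v) P ⟨Q, hQ⟩
  rw [h1]
  exact Subring.mul_mem _ (Subring.subset_closure (Or.inl ⟨P, rfl⟩))
    (Subring.subset_closure (Or.inr ⟨Q, hQ', rfl⟩))

theorem thetaO_X (c : Cf n d → k) (a : Cf n d) : thetaO c (X a) = genf c a := by
  rw [thetaO, theta, aeval_X, genf]

theorem thetaO_C (c : Cf n d → k) (t : k) : thetaO c (C t) = algebraMap k (OM n d k) t := by
  rw [thetaO, ← algebraMap_eq, AlgHom.commutes,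
    ← IsScalarTower.algebraMap_apply k (LL n d k) (OM n d k)]

end

/-- SOLI. -/
theorem t_SOLI (hI : S_INT.{u}) (hN : S_NDG.{u}) (hT : S_THETA.{u}) : S_SOLI.{u} := by
  intro k _ _ _ n d hd c v htr hnd
  have hth := hT k n d hd c htr
  -- the generic point over the local ring
  have hstr : Strong (fun a => algebraMap (Pol n d k) (Loc v) (X a)) := by
    apply hN (Loc v) k (evL v)
    · intro t
      exact ⟨algebraMap _ _ (C t), by rw [evL_alg, eval_C]⟩
    · have : (fun a => evL v (algebraMap (Pol n d k) (Loc v) (X a))) = v := by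
        ext a; rw [evL_alg, eval_X]
      rw [this]; exact hnd
  have hg : (fun a => thL c v hth (algebraMap (Pol n d k) (Loc v) (X a))) = genf c := by
    ext a; rw [thL_alg, thetaO_X]
  constructor
  · have := strong_map (thL c v hth) hstr
    rwa [hg] at this
  · intro E hE l i
    let _ : Algebra (Loc v) (OM n d k) := (thL c v hth).toAlgebra
    have h1 : IsIntegral (Loc v) (E l i) := by
      refine hI (Loc v) (OM n d k) n d hd _ hstr
        (Matrix.of fun j i => algebraMap (Pol n d k) (Loc v) (C (ev c (bas i) j))) E ?_ l i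
      intro i
      have hg' : (fun a => algebraMap (Loc v) (OM n d k)
          (algebraMap (Pol n d k) (Loc v) (X a))) = genf c := hg
      rw [hg', hE i]
      congr 1
      ext j
      rw [Matrix.of_apply]
      show _ = thL c v hth _
      rw [thL_alg, thetaO_C]
    obtain ⟨p, hp, hp0⟩ := h1
    let Θ : Loc v →+* Ov c v := (thL c v hth).codRestrict (Ov c v) (thL_mem c v hth)
    refine ⟨p.map Θ, hp.map Θ, ?_⟩
    rw [Polynomial.eval₂_map]
    exact hp0

end Pool.Agent.D0H3.SM
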