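import Pool.Agent.D0H3.SM.Tau2

set_option autoImplicit false

/-!
# Project SM, module 29 (TAU)
-/

namespace Pool.Agent.D0H3.SM

open MvPolynomial Matrix Pool.Agent.D0H90.SM

universe u

section
variable {k : Type u} [Field k] {n d : ℕ}

theorem semi_zero {P Q : Pol n d k} : Semi 0 P Q ↔ Invt P Q := by
  unfold Semi Invt
  simp only [pow_zero, one_mul]

theorem thetaO_ne (c : Cf n d → k) (hth : Function.Injective (theta c)) {P : Pol n d k}
    (hP : P ≠ 0) : thetaO c P ≠ 0 := by
  rw [thetaO, Ne, map_eq_zero]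
  intro h0
  exact hP (hth (h0.trans (map_zero _).symm))

/-- `θ` on the field of rational functions. -/
noncomputable def thR (c : Cf n d → k) (hth : Function.Injective (theta c)) :
    Rat n d k →+* OM n d k :=
  IsFractionRing.lift (A := Pol n d k)
    (g := ((algebraMap (LL n d k) (OM n d k)).comp (theta c).toRingHom : Pol n d k →+* OM n d k))
    ((algebraMap (LL n d k) (OM n d k)).injective.comp hth)

theorem thR_alg (c : Cf n d → k) (hth : Function.Injective (theta c)) (P : Pol n d k) :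
    thR c hth (algebraMap _ _ P) = thetaO c P := by
  rw [thR, IsFractionRing.lift_algebraMap]
  rfl

theorem ev_alg_bas (hB : S_BASE.{u}) (c : Cf n d → k) (i : Fin n) :
    ev (fun a => algebraMap k (OM n d k) (c a)) (bas i) =
      fun j => algebraMap k (OM n d k) (ev c (bas i) j) := by
  have h3 := hB.2.2.1 k (OM n d k) (algebraMap k (OM n d k)) n d c (bas i)
  rw [← h3]
  congr 1
  funext l
  rw [bas, bas]
  by_cases hl : l = i
  · subst hl; rw [Pi.single_eq_same, Pi.single_eq_same, map_one]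
  · rw [Pi.single_eq_of_ne hl, Pi.single_eq_of_ne hl, map_zero]

/-- The conjugate of `f` by a solution lies in the slice. -/
theorem conj_sol (hB : S_BASE.{u}) (c : Cf n d → k) (E : Matrix (Fin n) (Fin n) (OM n d k))
    (hs : Sol c E) (hdet : E.det ≠ 0) :
    conj E E⁻¹ (genf c) = glue (fun a => algebraMap k (OM n d k) (c a))
      (rest (conj E E⁻¹ (genf c))) := by
  have hu : IsUnit E.det := isUnit_iff_ne_zero.mpr hdet
  apply eq_glue
  intro i
  have hcol : E *ᵥ bas i = fun l => E l i := by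
    funext l
    rw [bas, Matrix.mulVec_single_one]; rfl
  rw [hB.1, hcol, hs i, Matrix.mulVec_mulVec, Matrix.nonsing_inv_mul _ hu, Matrix.one_mulVec,
    ev_alg_bas hB]

theorem res_ne (c : Cf n d → k) (Q : Pol n d k) (hQ : eval c Q ≠ 0) : res c Q ≠ 0 := by
  intro h0
  have h1 := aeval_res (S := k) c (rest c) Q
  rw [h0, map_zero] at h1
  have h2 : glue (fun a => algebraMap k k (c a)) (rest c) = c := glue_rest c
  rw [h2] at h1
  exact hQ h1.symm

/-- The relation (iii) for a single solution. -/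
theorem rel_one (hB : S_BASE.{u}) (hI : S_INVK.{u}) [CharZero k] (c : Cf n d → k)
    (E : Matrix (Fin n) (Fin n) (OM n d k)) (hs : Sol c E) (hdet : E.det ≠ 0)
    {m : ℕ} (P : Fin m → Pol n d k) (Q : Pol n d k) (R : Fin m → MvPolynomial (Rest n d) k)
    (hPQ : ∀ j, Invt (P j) Q)
    (hq : aeval (rest (conj E E⁻¹ (genf c))) (res c Q) ≠ 0)
    (hrel : ∑ j, res c (P j) * R j = 0) :
    ∑ j, thetaO c (P j) * aeval (rest (conj E E⁻¹ (genf c))) (R j) = 0 := by
  have hu : IsUnit E.det := isUnit_iff_ne_zero.mpr hdet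
  have hg := conj_sol hB c E hs hdet
  have hres : ∀ F : Pol n d k, aeval (rest (conj E E⁻¹ (genf c))) (res c F) =
      aeval (conj E E⁻¹ (genf c)) F := by
    intro F
    rw [aeval_res, ← hg]
  have h1 : ∀ j, thetaO c (P j) * aeval (rest (conj E E⁻¹ (genf c))) (res c Q) =
      aeval (rest (conj E E⁻¹ (genf c))) (res c (P j)) * thetaO c Q := by
    intro j
    have := hI k n d 0 (P j) Q (semi_zero.mpr (hPQ j)) (OM n d k) E E⁻¹
      (Matrix.mul_nonsing_inv _ hu) (genf c)
    rw [pow_zero, one_mul] at this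
    rw [hres, hres, thetaO_eq, thetaO_eq]
    exact this
  have h2 : (∑ j, thetaO c (P j) * aeval (rest (conj E E⁻¹ (genf c))) (R j)) *
      aeval (rest (conj E E⁻¹ (genf c))) (res c Q) =
      thetaO c Q * aeval (rest (conj E E⁻¹ (genf c))) (∑ j, res c (P j) * R j) := by
    rw [map_sum, Finset.sum_mul, Finset.mul_sum]
    refine Finset.sum_congr rfl fun j _ => ?_
    rw [map_mul]
    linear_combination (aeval (rest (conj E E⁻¹ (genf c))) (R j)) * h1 j
  rw [hrel, map_zero, mul_zero] at h2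
  exact (mul_eq_zero.mp h2).resolve_right hq

/-- The sum of `ψ(E)` over all solutions is invariant. -/
theorem sum_symA (hB : S_BASE.{u}) (hI : S_INVK.{u}) [CharZero k] (c : Cf n d → k)
    (hth : Function.Injective (theta c))
    {b : ℕ} {T1 T2 : Pol n d k} (hT : Semi b T1 T2) (h1 : T1 ≠ 0) (h2 : T2 ≠ 0)
    (Z : Finset (Matrix (Fin n) (Fin n) (OM n d k))) (hZ : ∀ E, E ∈ Z ↔ Sol c E)
    (G : MvPolynomial (Rest n d) k) (M : ℕ)
    (A A' : Matrix (Fin n) (Fin n) k) (σ : OM n d k ≃+* OM n d k) (hA : A * A' = 1)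
    (hσ : SymA c A A' σ) :
    algebraMap k (OM n d k) A.det ^ 0 *
      σ (∑ E ∈ Z, psiE c G (b * M) ((thetaO c T2 * (thetaO c T1)⁻¹) ^ M) E) =
      ∑ E ∈ Z, psiE c G (b * M) ((thetaO c T2 * (thetaO c T1)⁻¹) ^ M) E := by
  rw [pow_zero, one_mul, map_sum]
  rw [Finset.sum_congr rfl fun E _ => psiE_symA hB hI c hth hT h1 h2 hA hσ G M E]
  exact sum_perm hB hA hσ Z hZ
    (fun E => psiE c G (b * M) ((thetaO c T2 * (thetaO c T1)⁻¹) ^ M) E)

end

/-- TAU. -/
theorem t_TAU (hB : S_BASE.{u}) (hI : S_INVK.{u}) (hSo : S_SOLI.{u}) (hF : S_FINS.{u})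
    (hN : S_NDG.{u}) (hT : S_THETA.{u}) (hD : S_DESC.{u}) (hP : S_PLACE.{u}) (hO : S_OVP.{u})
    (hTT : S_TT.{u}) (hG : S_GENR.{u}) : S_TAU.{u} := by
  intro k _ _ _ n d hn hd c hnd htr haut D
  classical
  have hth := hT k n d hd c htr
  obtain ⟨hstr, hint⟩ := hSo k n d hd c c htr hnd
  have hfin := sol_finite hF hd c hstr
  obtain ⟨Z, hZ⟩ : ∃ Z : Finset (Matrix (Fin n) (Fin n) (OM n d k)), ∀ E, E ∈ Z ↔ Sol c E :=
    ⟨hfin.toFinset, fun E => hfin.mem_toFinset⟩
  have hstr0 : Strong c := hN k k (RingHom.id k) Function.surjective_id n d c hnd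
  have hfin0 := hF k n d hd c hstr0 (Matrix.of fun j i => ev c (bas i) j)
  obtain ⟨Z0, hZ0⟩ : ∃ Z0 : Finset (Matrix (Fin n) (Fin n) k), ∀ F, F ∈ Z0 ↔
      ∀ i, ev c (fun l => F l i) = F *ᵥ ev c (bas i) :=
    ⟨hfin0.toFinset, fun F => hfin0.mem_toFinset⟩
  obtain ⟨K, hK, hK1⟩ := poly_sep ((Z0.image (fun F => rest (conj F F⁻¹ c))).erase (rest c))
    (rest c) (Finset.notMem_erase _ _)
  obtain ⟨b, T1, T2, hb, hSemi, hT1, hT2⟩ := hTT k n d hd c hnd htr
  have hT1' : T1 ≠ 0 := by rintro rfl; exact hT1 (map_zero _)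
  have hT2' : T2 ≠ 0 := by rintro rfl; exact hT2 (map_zero _)
  obtain ⟨M, hMd, hMN⟩ : ∃ M, M = (d - 1) * (D + K.totalDegree + 1) ∧
      D + K.totalDegree < b * M := by
    refine ⟨_, rfl, ?_⟩
    have h1 : 1 ≤ d - 1 := by omega
    calc D + K.totalDegree < 1 * (1 * (D + K.totalDegree + 1)) := by omega
      _ ≤ b * ((d - 1) * (D + K.totalDegree + 1)) :=
        Nat.mul_le_mul hb (Nat.mul_le_mul h1 le_rfl)
  have hNlt : ∀ R : MvPolynomial (Rest n d) k, R.totalDegree ≤ D →
      (K * R).totalDegree < b * M := by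
    intro R hR
    have := totalDegree_mul K R
    omega
  have hN0 : 0 < b * M := by omega
  obtain ⟨t, ht⟩ : ∃ t : OM n d k, t = (thetaO c T2 * (thetaO c T1)⁻¹) ^ M := ⟨_, rfl⟩
  -- elements of the local ring
  have hov : ∀ P : Pol n d k, thetaO c P ∈ Ov c c := fun P =>
    Subring.subset_closure (Or.inl ⟨P, rfl⟩)
  have htov : t ∈ Ov c c := by
    rw [ht]
    exact (Ov c c).pow_mem ((Ov c c).mul_mem (hov _)
      (Subring.subset_closure (Or.inr ⟨T1, hT1, rfl⟩))) _
  have hovint : ∀ x ∈ Ov c c, IsIntegral (Ov c c) x := fun x hx =>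
    isIntegral_algebraMap (x := (⟨x, hx⟩ : Ov c c))
  -- integrality of `ψ(E)`
  have hpsiint : ∀ R : MvPolynomial (Rest n d) k, R.totalDegree ≤ D → ∀ E ∈ Z,
      IsIntegral (Ov c c) (psiE c (K * R) (b * M) t E) := by
    intro R hR E hE
    have := psiE_mem hB c (K * R) (b * M) t E (hNlt R hR)
      (integralClosure (Ov c c) (OM n d k)).toSubring
      (fun a => hovint _ (by rw [← thetaO_X]; exact hov _))
      (fun l i => hint E ((hZ E).mp hE) l i)
      (fun r => hovint _ (by rw [← thetaO_C]; exact hov _)) (hovint _ htov)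
    exact this
  have haint : ∀ R : MvPolynomial (Rest n d) k, R.totalDegree ≤ D →
      IsIntegral (Ov c c) (∑ E ∈ Z, psiE c (K * R) (b * M) t E) := fun R hR =>
    IsIntegral.sum _ fun E hE => hpsiint R hR E hE
  -- descent
  have hdesc : ∀ R : MvPolynomial (Rest n d) k, ∃ P Q : Pol n d k, R.totalDegree ≤ D →
      (Invt P Q ∧ eval c Q ≠ 0 ∧
        (∑ E ∈ Z, psiE c (K * R) (b * M) t E) * thetaO c Q = thetaO c P) := by
    intro R
    by_cases hR : R.totalDegree ≤ D
    · have hinv := sum_symA hB hI c hth hSemi hT1' hT2' Z hZ (K * R) M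
      rw [← ht] at hinv
      obtain ⟨P, Q, h1, h2, -, h3⟩ := hD k n d hd c htr c c 0
        (∑ E ∈ Z, psiE c (K * R) (b * M) t E) hinv (haint R hR) (haint R hR)
      exact ⟨P, Q, fun _ => ⟨semi_zero.mp h1, h2, h3⟩⟩
    · exact ⟨0, 0, fun h => absurd h hR⟩
  choose pP qQ hpq using hdesc
  have halg : ∀ {Q : Pol n d k}, eval c Q ≠ 0 → algebraMap (Pol n d k) (Rat n d k) Q ≠ 0 := by
    intro Q hQ h0
    have : Q = 0 := (IsFractionRing.injective (Pol n d k) (Rat n d k)) (h0.trans (map_zero _).symm)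
    rw [this] at hQ
    exact hQ (map_zero _)
  refine ⟨fun R => algebraMap (Pol n d k) (Rat n d k) (pP R) /
    algebraMap (Pol n d k) (Rat n d k) (qQ R), ?_, ?_, ?_⟩
  · intro R hR
    obtain ⟨h1, h2, -⟩ := hpq R hR
    exact ⟨pP R, qQ R, h1, h2, div_mul_cancel₀ _ (halg h2)⟩
  · intro S hS hSw hvan
    obtain ⟨h1, h2, h3⟩ := hpq S hS
    obtain ⟨P', Q', -, hQ', hP', hE'⟩ := hvan
    -- the numerator vanishes at `c`
    have h4 : pP S * Q' = P' * qQ S := by
      apply IsFractionRing.injective (Pol n d k) (Rat n d k)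
      rw [map_mul, map_mul, ← hE']
      field_simp [halg h2]
    have h5 : eval c (pP S) = 0 := by
      have := congrArg (eval c) h4
      rw [map_mul, map_mul, hP', zero_mul] at this
      exact (mul_eq_zero.mp this).resolve_right hQ'
    -- a place
    obtain ⟨pl⟩ := hP k n d (rest c)
    have hgr : glue c (rest c) = c := glue_rest c
    have hEmem : ∀ E ∈ Z, ∀ l i, E l i ∈ pl.ring := by
      intro E hE l i
      apply int_mem hO c pl
      rw [hgr]
      exact hint E ((hZ E).mp hE) l i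
    have htmem : t ∈ pl.ring := by
      apply int_mem hO c pl
      rw [hgr]
      exact hovint _ htov
    have hval : ∀ E ∈ Z, psiE c (K * S) (b * M) t E ∈ pl.ring ∧
        redT pl (psiE c (K * S) (b * M) t E) =
          eval (rest (conj (E.map (redT pl)) (E.map (redT pl))⁻¹ c)) (K * S) *
            (E.map (redT pl)).det ^ (b * M) * redT pl t := by
      intro E hE
      have := redT_psi hB hO c pl E (hEmem E hE) (K * S) (b * M) (hNlt S hS) t htmem
      rw [hgr] at this
      exact this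
    have hite : ∀ E ∈ Z, redT pl (psiE c (K * S) (b * M) t E) =
        if ((E.map (redT pl)).det ≠ 0 ∧
          rest (conj (E.map (redT pl)) (E.map (redT pl))⁻¹ c) = rest c) then
          eval (rest c) S * redT pl t else 0 := by
      intro E hE
      rw [(hval E hE).2]
      have hsol0 : ∀ i, ev c (fun l => (E.map (redT pl)) l i) =
          E.map (redT pl) *ᵥ ev c (bas i) := by
        intro i
        have := red_sol hB hO c pl E (hEmem E hE) ((hZ E).mp hE) i
        rw [hgr] at this
        exact this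
      by_cases hdet : (E.map (redT pl)).det = 0
      · rw [if_neg (fun h => h.1 hdet), hdet, zero_pow hN0.ne', mul_zero, zero_mul]
      · by_cases hr : rest (conj (E.map (redT pl)) (E.map (redT pl))⁻¹ c) = rest c
        · rw [if_pos ⟨hdet, hr⟩, hr, map_mul, hK1, one_mul]
          obtain ⟨r, hr1, hr2⟩ := scalar_of hB (by omega) (by omega) c hnd haut _ hsol0 hdet hr
          have h6 : (E.map (redT pl)).det ^ (b * M) = 1 := by
            rw [hr1, Matrix.det_smul, Matrix.det_one, mul_one, hMd, ← pow_mul]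
            have : Fintype.card (Fin n) * (b * ((d - 1) * (D + K.totalDegree + 1))) =
                (d - 1) * (Fintype.card (Fin n) * (b * (D + K.totalDegree + 1))) := by ring
            rw [this, pow_mul, hr2, one_pow]
          rw [h6, mul_one]
        · rw [if_neg (fun h => hr h.2), map_mul, hK _ (Finset.mem_erase.mpr ⟨hr,
            Finset.mem_image.mpr ⟨_, (hZ0 _).mpr hsol0, rfl⟩⟩), zero_mul, zero_mul, zero_mul]
    -- the value of the sum
    have hsum : redT pl (∑ E ∈ Z, psiE c (K * S) (b * M) t E) =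
        ((Z.filter fun E => ((E.map (redT pl)).det ≠ 0 ∧
          rest (conj (E.map (redT pl)) (E.map (redT pl))⁻¹ c) = rest c)).card : k) *
          (eval (rest c) S * redT pl t) := by
      rw [redT_sum pl _ _ fun E hE => (hval E hE).1, Finset.sum_congr rfl hite,
        ← Finset.sum_filter, Finset.sum_const, nsmul_eq_mul]
    -- it is 0
    have hzero : redT pl (∑ E ∈ Z, psiE c (K * S) (b * M) t E) = 0 := by
      have hamem : (∑ E ∈ Z, psiE c (K * S) (b * M) t E) ∈ pl.ring :=
        pl.ring.sum_mem fun E hE => (hval E hE).1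
      have h6 := congrArg (redT pl) h3
      rw [redT_mul pl hamem (theta_mem hO c pl _), redT_theta hO, redT_theta hO, hgr, h5] at h6
      exact (mul_eq_zero.mp h6).resolve_right h2
    -- but not 0
    have hcard : ((Z.filter fun E => ((E.map (redT pl)).det ≠ 0 ∧
          rest (conj (E.map (redT pl)) (E.map (redT pl))⁻¹ c) = rest c)).card : k) ≠ 0 := by
      rw [Nat.cast_ne_zero]
      apply Finset.card_ne_zero_of_mem (a := gE n d k)
      rw [Finset.mem_filter]
      refine ⟨(hZ _).mpr (sol_gE hB c), ?_⟩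
      rw [gE_red]
      refine ⟨by rw [Matrix.det_one]; exact one_ne_zero, ?_⟩
      have h7 : conj (1 : Matrix (Fin n) (Fin n) k) (1 : Matrix (Fin n) (Fin n) k)⁻¹ c = c := by
        apply hB.2.1 k n d
        intro x
        rw [hB.1, inv_one, Matrix.one_mulVec, Matrix.one_mulVec]
      rw [h7]
    have htne : redT pl t ≠ 0 := by
      have h8 : t * thetaO c T1 ^ M = thetaO c T2 ^ M := by
        rw [ht, mul_pow, mul_assoc, ← mul_pow, inv_mul_cancel₀ (thetaO_ne c hth hT1'), one_pow,
          mul_one]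
      have h9 := congrArg (redT pl) h8
      rw [redT_mul pl htmem (pl.ring.pow_mem (theta_mem hO c pl _) _), redT_pow pl
        (theta_mem hO c pl _), redT_pow pl (theta_mem hO c pl _), redT_theta hO, redT_theta hO,
        hgr] at h9
      intro h0
      rw [h0, zero_mul] at h9
      exact pow_ne_zero _ hT2 h9.symm
    rw [hsum] at hzero
    exact (mul_ne_zero hcard (mul_ne_zero hSw htne)) hzero
  · intro m P Q R hPQ hQ hR hrel
    have hτ : ∀ R : MvPolynomial (Rest n d) k, R.totalDegree ≤ D →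
        thR c hth (algebraMap (Pol n d k) (Rat n d k) (pP R) /
          algebraMap (Pol n d k) (Rat n d k) (qQ R)) = ∑ E ∈ Z, psiE c (K * R) (b * M) t E := by
      intro R hR
      obtain ⟨h1, h2, h3⟩ := hpq R hR
      have h4 : qQ R ≠ 0 := by intro h0; rw [h0] at h2; exact h2 (map_zero _)
      rw [map_div₀, thR_alg, thR_alg, ← h3, mul_div_cancel_right₀ _ (thetaO_ne c hth h4)]
    apply (thR c hth).injective
    rw [map_zero, map_sum]
    have h1 : ∀ j, thR c hth (algebraMap (Pol n d k) (Rat n d k) (P j) *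
        (algebraMap (Pol n d k) (Rat n d k) (pP (R j)) /
          algebraMap (Pol n d k) (Rat n d k) (qQ (R j)))) =
        ∑ E ∈ Z, thetaO c (P j) * psiE c (K * R j) (b * M) t E := by
      intro j
      rw [map_mul, hτ _ (hR j), thR_alg, Finset.mul_sum]
    rw [Finset.sum_congr rfl fun j _ => h1 j, Finset.sum_comm]
    apply Finset.sum_eq_zero
    intro E hE
    by_cases hdet : E.det = 0
    · apply Finset.sum_eq_zero
      intro j _
      rw [psiE, hdet, zero_pow hN0.ne', mul_zero, zero_mul, mul_zero]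
    · have hs := (hZ E).mp hE
      have h2 := rel_one hB hI c E hs hdet P Q R hPQ
        (hG k n d hd c hnd htr E hs hdet (res c Q) (res_ne c Q hQ)) hrel
      have h3 : ∀ j, thetaO c (P j) * psiE c (K * R j) (b * M) t E =
          (thetaO c (P j) * aeval (rest (conj E E⁻¹ (genf c))) (R j)) *
            (aeval (rest (conj E E⁻¹ (genf c))) K * E.det ^ (b * M) * t) := by
        intro j
        rw [psiE, map_mul]; ring
      rw [Finset.sum_congr rfl fun j _ => h3 j, ← Finset.sum_mul, h2, zero_mul]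

end Pool.Agent.D0H3.SM
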