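import Pool.Agent.D0H90.SM.Stm4
import Pool.Agent.D0H3.SM.Extb
import Pool.Agent.D0H3.SM.Soli

set_option autoImplicit false

/-!
# Project SM, module 29 (TAU), general facts
-/

namespace Pool.Agent.D0H3.SM

open MvPolynomial Matrix Pool.Agent.D0H90.SM

universe u

section General
variable {n d : ℕ}

theorem glue_rest {R : Type*} (c : Cf n d → R) : glue c (rest c) = c := by
  funext a; rw [glue]; split <;> rfl

theorem conj_smul {R : Type*} [CommRing R] (A A' : Matrix (Fin n) (Fin n) R) (r : R)
    (c : Cf n d → R) (a : Cf n d) : conj A (r • A') c a = r * conj A A' c a := by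
  simp only [conj, Matrix.smul_apply, smul_eq_mul, Finset.mul_sum, mul_assoc]

theorem mon_bas {R : Type*} [CommRing R] (i : Fin n) (m m0 : Ex n d) (h0 : (m0.1 i : ℕ) = d) :
    mon m (bas i : Fin n → R) = if m = m0 then 1 else 0 := by
  have hz : ∀ l ≠ i, (m0.1 l : ℕ) = 0 := by
    intro l hl
    have h1 : ∑ l, (m0.1 l : ℕ) = d := m0.2
    rw [← Finset.add_sum_erase _ _ (Finset.mem_univ i), h0] at h1
    have h2 : ∑ x ∈ Finset.univ.erase i, (m0.1 x : ℕ) = 0 := by omega
    rw [Finset.sum_eq_zero_iff] at h2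
    exact h2 l (Finset.mem_erase.mpr ⟨hl, Finset.mem_univ l⟩)
  by_cases hm : m = m0
  · rw [if_pos hm, hm, mon]
    refine Finset.prod_eq_one fun l _ => ?_
    by_cases hl : l = i
    · rw [hl, bas, Pi.single_eq_same, one_pow]
    · rw [hz l hl, pow_zero]
  · rw [if_neg hm]
    have : ∃ l, l ≠ i ∧ (m.1 l : ℕ) ≠ 0 := by
      by_contra hcon
      push Not at hcon
      apply hm
      have h3 : (m.1 i : ℕ) = d := by
        have h1 : ∑ l, (m.1 l : ℕ) = d := m.2
        rw [Finset.sum_eq_single i (fun l _ hl => hcon l hl)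
          (fun h => absurd (Finset.mem_univ i) h)] at h1
        exact h1
      apply Subtype.ext
      funext l
      apply Fin.ext
      by_cases hl : l = i
      · rw [hl, h3, h0]
      · rw [hcon l hl, hz l hl]
    obtain ⟨l, hl, hml⟩ := this
    rw [mon]
    apply Finset.prod_eq_zero (Finset.mem_univ l)
    rw [bas, Pi.single_eq_of_ne hl, zero_pow hml]

theorem ev_bas {R : Type*} [CommRing R] (c : Cf n d → R) (a : Cf n d) (i : Fin n)
    (h : (a.2.1 i : ℕ) = d) : ev c (bas i) a.1 = c a := by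
  rw [ev]
  simp only [mon_bas i _ a.2 h, mul_ite, mul_one, mul_zero]
  rw [Finset.sum_ite_eq' Finset.univ a.2 (fun m => c (a.1, m)), if_pos (Finset.mem_univ _)]

theorem eq_glue {R : Type*} [CommRing R] (c c' : Cf n d → R)
    (h : ∀ i, ev c' (bas i) = ev c (bas i)) : c' = glue c (rest c') := by
  funext a
  rw [glue]
  split
  · rename_i ha
    obtain ⟨i, hi⟩ := ha
    rw [← ev_bas c a i hi, ← ev_bas c' a i hi, h i]
  · rfl

/-- The value at `e_i` depends only on the coefficients of the `d`-th powers. -/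
theorem ev_bas_congr {R : Type*} [CommRing R] (c c' : Cf n d → R)
    (h : ∀ a : Cf n d, (∃ i, (a.2.1 i : ℕ) = d) → c a = c' a) (i : Fin n) :
    ev c (bas i) = ev c' (bas i) := by
  funext j
  let m0 : Ex n d := ⟨fun l => if l = i then ⟨d, Nat.lt_succ_self d⟩ else ⟨0, Nat.succ_pos d⟩, by
    rw [Finset.sum_eq_single i]
    · simp
    · intro l _ hl; simp [hl]
    · intro h; exact absurd (Finset.mem_univ i) h⟩
  have h0 : (m0.1 i : ℕ) = d := by simp [m0]
  have h1 := ev_bas c (j, m0) i h0
  have h2 := ev_bas c' (j, m0) i h0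
  rw [h1, h2]
  exact h _ ⟨i, h0⟩

theorem aeval_res {k S : Type*} [Field k] [CommRing S] [Algebra k S] (c : Cf n d → k)
    (z : Rest n d → S) (P : Pol n d k) :
    aeval z (res c P) = aeval (glue (fun a => algebraMap k S (c a)) z) P := by
  rw [res, comp_aeval_apply]
  congr 2
  funext a
  rw [glue, glue]
  split
  · exact aeval_C _ _
  · exact aeval_X _ _

theorem ev_smul {R : Type*} [CommRing R] (c : Cf n d → R) (r : R) (x : Fin n → R) (i : Fin n) :
    ev c (fun l => r * x l) i = r ^ d * ev c x i := by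
  rw [ev, ev, Finset.mul_sum]
  refine Finset.sum_congr rfl fun m _ => ?_
  have : mon m (fun l => r * x l) = r ^ d * mon m x := by
    rw [mon, mon]
    simp only [mul_pow]
    rw [Finset.prod_mul_distrib, Finset.prod_pow_eq_pow_sum]
    congr 2
    exact m.2
  rw [this]; ring

end General

section Hmg
variable {ι : Type*} {k : Type*} [Field k]

/-- `δ^N G(u/δ)`. -/
noncomputable def hmg {S : Type*} [CommRing S] (φ : k →+* S) (G : MvPolynomial ι k) (u : ι → S)
    (δ : S) (N : ℕ) : S :=
  ∑ m ∈ G.support, φ (coeff m G) * (∏ i ∈ m.support, u i ^ m i) *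
    δ ^ (N - m.sum fun _ e => e)

theorem hmg_map {S S' : Type*} [CommRing S] [CommRing S'] (φ : k →+* S) (g : S →+* S')
    (G : MvPolynomial ι k) (u : ι → S) (δ : S) (N : ℕ) :
    g (hmg φ G u δ N) = hmg (g.comp φ) G (fun i => g (u i)) (g δ) N := by
  simp only [hmg, map_sum, map_mul, map_prod, map_pow, RingHom.comp_apply]

theorem hmg_eq {L : Type*} [Field L] (φ : k →+* L) (G : MvPolynomial ι k) (u : ι → L) (δ : L)
    (N : ℕ) (hN : G.totalDegree < N) :
    hmg φ G u δ N = eval₂ φ (fun i => δ⁻¹ * u i) G * δ ^ N := by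
  rw [eval₂_eq, Finset.sum_mul, hmg]
  refine Finset.sum_congr rfl fun m hm => ?_
  have h1 : (m.sum fun _ e => e) < N := lt_of_le_of_lt (le_totalDegree hm) hN
  set s := m.sum fun _ e => e with hs
  have h2 : ∏ i ∈ m.support, (δ⁻¹ * u i) ^ m i = δ⁻¹ ^ s * ∏ i ∈ m.support, u i ^ m i := by
    simp only [mul_pow]
    rw [Finset.prod_mul_distrib, Finset.prod_pow_eq_pow_sum]
    rfl
  rw [h2]
  by_cases h0 : δ = 0
  · subst h0
    rw [zero_pow (by omega), zero_pow (by omega : N ≠ 0)]; ring
  · have h3 : δ ^ N = δ ^ s * δ ^ (N - s) := by rw [← pow_add]; congr 1; omega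
    have h4 : δ⁻¹ ^ s * δ ^ s = 1 := by rw [← mul_pow, inv_mul_cancel₀ h0, one_pow]
    rw [h3]
    linear_combination (-(φ (coeff m G) * (∏ i ∈ m.support, u i ^ m i) * δ ^ (N - s))) * h4

/-- A polynomial vanishing on a finite set and equal to 1 at a point outside. -/
theorem poly_sep (bad : Finset (ι → k)) (w : ι → k) (hw : w ∉ bad) :
    ∃ K : MvPolynomial ι k, (∀ z ∈ bad, eval z K = 0) ∧ eval w K = 1 := by
  classical
  induction bad using Finset.induction_on with
  | empty => exact ⟨1, by simp, by simp⟩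
  | insert z s hz ih =>
    obtain ⟨K, hK, hK1⟩ := ih fun h => hw (Finset.mem_insert_of_mem h)
    have hne : w ≠ z := fun h => hw (h ▸ Finset.mem_insert_self _ _)
    obtain ⟨i, hi⟩ := Function.ne_iff.mp hne
    refine ⟨K * (C ((w i - z i)⁻¹) * (X i - C (z i))), ?_, ?_⟩
    · intro y hy
      rcases Finset.mem_insert.mp hy with rfl | hy
      · simp
      · rw [map_mul, hK y hy, zero_mul]
    · rw [map_mul, hK1, map_mul, map_sub, eval_C, eval_X, eval_C, one_mul,
        inv_mul_cancel₀ (sub_ne_zero.mpr hi)]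

end Hmg

section Sol
variable {k : Type u} [Field k] {n d : ℕ}

theorem thetaO_eq (c : Cf n d → k) (P : Pol n d k) : thetaO c P = aeval (genf c) P := by
  rw [thetaO, theta]
  exact (aeval_algebraMap_apply (OM n d k) (genfL c) P).symm

theorem symA_aeval {c : Cf n d → k} {A A' : Matrix (Fin n) (Fin n) k}
    {σ : OM n d k ≃+* OM n d k} (hσ : SymA c A A' σ) {ι : Type*} (z : ι → OM n d k)
    (P : MvPolynomial ι k) : σ (aeval z P) = aeval (fun i => σ (z i)) P := by
  let σa : OM n d k →ₐ[k] OM n d k := { σ.toRingHom with commutes' := hσ.1 }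
  exact comp_aeval_apply z σa P

theorem symA_theta {c : Cf n d → k} {A A' : Matrix (Fin n) (Fin n) k}
    {σ : OM n d k ≃+* OM n d k} (hσ : SymA c A A' σ) (P : Pol n d k) :
    σ (thetaO c P) = aeval (conj (A.map (algebraMap k (OM n d k)))
      (A'.map (algebraMap k (OM n d k))) (genf c)) P := by
  rw [thetaO_eq, symA_aeval hσ]
  congr 2
  funext a
  exact hσ.2 a

/-- `E ↦ A σ(E)` maps solutions to solutions. -/
theorem sol_map (hB : S_BASE.{u}) {c : Cf n d → k} {A A' : Matrix (Fin n) (Fin n) k}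
    (hA : A * A' = 1) {σ : OM n d k ≃+* OM n d k} (hσ : SymA c A A' σ)
    {E : Matrix (Fin n) (Fin n) (OM n d k)} (hE : Sol c E) :
    Sol c (A.map (algebraMap k (OM n d k)) * E.map σ) := by
  intro i
  set A1 := A.map (algebraMap k (OM n d k)) with hA1
  set A2 := A'.map (algebraMap k (OM n d k)) with hA2
  have h12 : A1 * A2 = 1 := by
    rw [hA1, hA2, ← Matrix.map_mul, hA, Matrix.map_one _ (map_zero _) (map_one _)]
  have h1 := hE i
  have h2 : (fun j => σ (ev (genf c) (fun l => E l i) j)) =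
      fun j => σ ((E *ᵥ fun j => algebraMap k (OM n d k) (ev c (bas i) j)) j) := by
    rw [h1]
  have h3 := hB.2.2.1 (OM n d k) (OM n d k) σ.toRingHom n d (genf c) (fun l => E l i)
  have h4 : (fun a => σ.toRingHom (genf c a)) = conj A1 A2 (genf c) := by
    funext a; exact hσ.2 a
  rw [h4, hB.1] at h3
  have h5 : (fun j => σ ((E *ᵥ fun j => algebraMap k (OM n d k) (ev c (bas i) j)) j)) =
      E.map σ *ᵥ fun j => algebraMap k (OM n d k) (ev c (bas i) j) := by
    funext j
    simp only [Matrix.mulVec, dotProduct, map_sum, map_mul, hσ.1, Matrix.map_apply]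
  have h6 : A2 *ᵥ ev (genf c) (A1 *ᵥ fun l => σ (E l i)) =
      E.map σ *ᵥ fun j => algebraMap k (OM n d k) (ev c (bas i) j) := by
    rw [← h5, ← h2]; exact h3
  have h7 := congrArg (fun v => A1 *ᵥ v) h6
  simp only [Matrix.mulVec_mulVec] at h7
  rw [h12, Matrix.one_mulVec] at h7
  rw [← h7]
  rfl

/-- The generic matrix over `OM`. -/
noncomputable def gE (n d : ℕ) (k : Type u) [Field k] : Matrix (Fin n) (Fin n) (OM n d k) :=
  (genE n d k).map (algebraMap (LL n d k) (OM n d k))

theorem det_genE (n d : ℕ) (k : Type u) [Field k] : (genE n d k).det ≠ 0 := by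
  have h1 : (genE n d k).det = algebraMap (PP n d k) (LL n d k)
      (Matrix.of fun i j => (X (Sum.inl (i, j)) : PP n d k)).det := by
    rw [RingHom.map_det]; rfl
  rw [h1]
  intro h0
  have h2 : (Matrix.of fun i j => (X (Sum.inl (i, j)) : PP n d k)).det = 0 :=
    (IsFractionRing.injective (PP n d k) (LL n d k)) (h0.trans (map_zero _).symm)
  have h3 := congrArg (evalOne (n := n) (d := d) (fun _ => (0 : k))) h2
  rw [map_zero, RingHom.map_det] at h3
  have h4 : (evalOne (n := n) (d := d) (fun _ => (0 : k))).mapMatrix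
      (Matrix.of fun i j => (X (Sum.inl (i, j)) : PP n d k)) = 1 := by
    ext i j
    rw [RingHom.mapMatrix_apply, Matrix.map_apply, Matrix.of_apply, evalOne, eval_X,
      Sum.elim_inl, Matrix.one_apply]
  rw [h4, Matrix.det_one] at h3
  exact one_ne_zero h3

theorem det_gE (n d : ℕ) (k : Type u) [Field k] : (gE n d k).det ≠ 0 := by
  have h1 : (gE n d k).det = algebraMap (LL n d k) (OM n d k) (genE n d k).det := by
    rw [RingHom.map_det]; rfl
  rw [h1, Ne, map_eq_zero]
  exact det_genE n d k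

theorem sol_gE (hB : S_BASE.{u}) (c : Cf n d → k) : Sol c (gE n d k) := by
  intro i
  have hu : IsUnit (genE n d k).det := isUnit_iff_ne_zero.mpr (det_genE n d k)
  have h1 : ev (genfL c) (fun l => genE n d k l i) =
      genE n d k *ᵥ fun j => algebraMap k (LL n d k) (ev c (bas i) j) := by
    have hcol : (fun l => genE n d k l i) = genE n d k *ᵥ bas i := by
      funext l
      rw [bas, Matrix.mulVec_single_one]; rfl
    rw [genfL, hB.1, hcol, Matrix.mulVec_mulVec, Matrix.nonsing_inv_mul _ hu, Matrix.one_mulVec]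
    congr 1
    have h2 : ev (geny c) (bas i) = ev (fun a => algebraMap k (LL n d k) (c a)) (bas i) := by
      apply ev_bas_congr
      intro a ha
      rw [geny, glue, dif_pos ha, IsScalarTower.algebraMap_apply k (PP n d k) (LL n d k),
        algebraMap_eq]
    rw [h2]
    have h3 := hB.2.2.1 k (LL n d k) (algebraMap k (LL n d k)) n d c (bas i)
    rw [← h3]
    congr 1
    funext l
    rw [bas, bas]
    by_cases hl : l = i
    · subst hl; rw [Pi.single_eq_same, Pi.single_eq_same, map_one]
    · rw [Pi.single_eq_of_ne hl, Pi.single_eq_of_ne hl, map_zero]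
  have h4 := hB.2.2.1 (LL n d k) (OM n d k) (algebraMap (LL n d k) (OM n d k)) n d (genfL c)
    (fun l => genE n d k l i)
  have h5 : ev (genf c) (fun l => gE n d k l i) =
      fun j => algebraMap (LL n d k) (OM n d k) (ev (genfL c) (fun l => genE n d k l i) j) := h4
  rw [h5, h1]
  funext j
  simp only [Matrix.mulVec, dotProduct, map_sum, map_mul, gE, Matrix.map_apply,
    ← IsScalarTower.algebraMap_apply k (LL n d k) (OM n d k)]

end Sol

end Pool.Agent.D0H3.SM
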