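import Pool.Agent.D0H3.SM.Tau0

set_option autoImplicit false

/-!
# Project SM, module 29 (TAU): the functions `ψ(E)`
-/

namespace Pool.Agent.D0H3.SM

open MvPolynomial Matrix Pool.Agent.D0H90.SM

universe u

section Psi
variable {k : Type u} [Field k] {n d : ℕ}

/-- `ψ(E) = G(rest (E⁻¹ ∘ f ∘ E)) det(E)^N t`. -/
noncomputable def psiE (c : Cf n d → k) (G : MvPolynomial (Rest n d) k) (N : ℕ) (t : OM n d k)
    (E : Matrix (Fin n) (Fin n) (OM n d k)) : OM n d k :=
  aeval (rest (conj E E⁻¹ (genf c))) G * E.det ^ N * t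

theorem conj_inv {K : Type*} [Field K] (E : Matrix (Fin n) (Fin n) K) (f : Cf n d → K)
    (a : Cf n d) : conj E E⁻¹ f a = E.det⁻¹ * conj E E.adjugate f a := by
  rw [Matrix.inv_def, Ring.inverse_eq_inv', conj_smul]

theorem psiE_hmg (c : Cf n d → k) (G : MvPolynomial (Rest n d) k) (N : ℕ) (t : OM n d k)
    (E : Matrix (Fin n) (Fin n) (OM n d k)) (hN : G.totalDegree < N) :
    psiE c G N t E = hmg (algebraMap k (OM n d k)) G (rest (conj E E.adjugate (genf c))) E.det N
      * t := by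
  rw [hmg_eq _ _ _ _ _ hN, psiE]
  congr 2
  rw [aeval_def]
  congr 1
  funext ρ
  exact conj_inv E (genf c) ρ.1

theorem hmg_sub (hB : S_BASE.{u}) {S Ω : Type u} [CommRing S] [CommRing Ω] (g : S →+* Ω)
    (κ : k →+* S) (G : MvPolynomial (Rest n d) k) (fr : Cf n d → S)
    (Er : Matrix (Fin n) (Fin n) S) (N : ℕ) :
    g (hmg κ G (rest (conj Er Er.adjugate fr)) Er.det N) =
      hmg (g.comp κ) G (rest (conj (Er.map g) (Er.map g).adjugate (fun a => g (fr a))))
        (Er.map g).det N := by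
  rw [hmg_map]
  have h1 : (Er.map g).adjugate = Er.adjugate.map g := by
    have := RingHom.map_adjugate g Er
    rw [RingHom.mapMatrix_apply, RingHom.mapMatrix_apply] at this
    exact this.symm
  have h2 : g Er.det = (Er.map g).det := RingHom.map_det g Er
  rw [h1, h2, hB.2.2.2.2.1 S Ω g n d fr Er Er.adjugate]
  rfl

/-- `ψ(E)` lies in every subring which contains the coordinates of `f`, the entries of `E`,
the constants and `t`. -/
theorem psiE_mem (hB : S_BASE.{u}) (c : Cf n d → k) (G : MvPolynomial (Rest n d) k) (N : ℕ)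
    (t : OM n d k) (E : Matrix (Fin n) (Fin n) (OM n d k)) (hN : G.totalDegree < N)
    (S : Subring (OM n d k)) (hf : ∀ a, genf c a ∈ S) (hE : ∀ l i, E l i ∈ S)
    (hk : ∀ r : k, algebraMap k (OM n d k) r ∈ S) (ht : t ∈ S) : psiE c G N t E ∈ S := by
  rw [psiE_hmg c G N t E hN]
  refine S.mul_mem ?_ ht
  let κ : k →+* S := (algebraMap k (OM n d k)).codRestrict S hk
  let Er : Matrix (Fin n) (Fin n) S := Matrix.of fun l i => ⟨E l i, hE l i⟩
  have h := hmg_sub hB S.subtype κ G (fun a => ⟨genf c a, hf a⟩) Er N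
  have h1 : Er.map S.subtype = E := by ext l i; rfl
  have h2 : (S.subtype).comp κ = algebraMap k (OM n d k) := by ext r; rfl
  rw [h1, h2] at h
  have h3 : (fun a => S.subtype (⟨genf c a, hf a⟩ : S)) = genf c := rfl
  rw [h3] at h
  rw [← h]
  exact Subtype.mem _

/-- `σ(ψ(E)) = ψ(A σ(E))`. -/
theorem psiE_symA (hB : S_BASE.{u}) (hI : S_INVK.{u}) [CharZero k] (c : Cf n d → k)
    (hth : Function.Injective (theta c))
    {b : ℕ} {T1 T2 : Pol n d k} (hT : Semi b T1 T2) (h1 : T1 ≠ 0) (h2 : T2 ≠ 0)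
    {A A' : Matrix (Fin n) (Fin n) k} (hA : A * A' = 1) {σ : OM n d k ≃+* OM n d k}
    (hσ : SymA c A A' σ) (G : MvPolynomial (Rest n d) k) (M : ℕ)
    (E : Matrix (Fin n) (Fin n) (OM n d k)) :
    σ (psiE c G (b * M) ((thetaO c T2 * (thetaO c T1)⁻¹) ^ M) E) =
      psiE c G (b * M) ((thetaO c T2 * (thetaO c T1)⁻¹) ^ M)
        (A.map (algebraMap k (OM n d k)) * E.map σ) := by
  have : CharZero (OM n d k) := charZero_of_injective_algebraMap (algebraMap k (OM n d k)).injective
  set A1 := A.map (algebraMap k (OM n d k)) with hA1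
  set A2 := A'.map (algebraMap k (OM n d k)) with hA2
  have h12 : A1 * A2 = 1 := by
    rw [hA1, hA2, ← Matrix.map_mul, hA, Matrix.map_one _ (map_zero _) (map_one _)]
  have hdet : A1.det = algebraMap k (OM n d k) A.det := by
    rw [RingHom.map_det]; rfl
  have hd0 : A1.det ≠ 0 := by
    intro h0
    have := congrArg Matrix.det h12
    rw [Matrix.det_mul, h0, zero_mul, Matrix.det_one] at this
    exact one_ne_zero this.symm
  have hne : ∀ P : Pol n d k, P ≠ 0 → thetaO c P ≠ 0 := by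
    intro P hP
    rw [thetaO, Ne, map_eq_zero]
    intro h0
    exact hP (hth (h0.trans (map_zero _).symm))
  -- the weight of `T`
  have hs1 := symA_theta hσ T1
  have hs2 := symA_theta hσ T2
  have hs1' : σ (thetaO c T1) ≠ 0 := (map_ne_zero σ).mpr (hne T1 h1)
  have hs2' : σ (thetaO c T2) ≠ 0 := (map_ne_zero σ).mpr (hne T2 h2)
  have hw := hI k n d b T1 T2 hT (OM n d k) A1 A2 h12 (genf c)
  rw [← hs1, ← hs2, ← thetaO_eq, ← thetaO_eq] at hw
  have ht : σ (thetaO c T2 * (thetaO c T1)⁻¹) =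
      A1.det ^ b * (thetaO c T2 * (thetaO c T1)⁻¹) := by
    rw [map_mul, map_inv₀]
    field_simp [hne T1 h1]
    linear_combination hw
  -- the conjugate
  have hz : (fun i => σ (rest (conj E E⁻¹ (genf c)) i)) =
      rest (conj (A1 * E.map σ) (A1 * E.map σ)⁻¹ (genf c)) := by
    funext ρ
    have h5 := congrFun (hB.2.2.2.2.1 (OM n d k) (OM n d k) σ.toRingHom n d (genf c) E E⁻¹) ρ.1
    have h4 : (fun a => σ.toRingHom (genf c a)) = conj A1 A2 (genf c) := by
      funext a; exact hσ.2 a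
    rw [h4, map_inv_matrix, ← conj_conj hB] at h5
    have h6 : (A1 * E.map σ)⁻¹ = (E.map σ)⁻¹ * A2 := by
      rw [Matrix.mul_inv_rev, Matrix.inv_eq_right_inv h12]
    rw [h6]
    exact h5.symm
  have hdE : σ E.det = (E.map σ).det := RingHom.map_det σ.toRingHom E
  rw [psiE, psiE, map_mul, map_mul, symA_aeval hσ, hz, map_pow, map_pow, ht, hdE, Matrix.det_mul,
    mul_pow, mul_pow, ← pow_mul]
  ring

end Psi

end Pool.Agent.D0H3.SM
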