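import Pool.Agent.D0H3.SM.Tau1

set_option autoImplicit false

/-!
# Project SM, module 29 (TAU): reduction at a place
-/

namespace Pool.Agent.D0H3.SM

open MvPolynomial Matrix Pool.Agent.D0H90.SM

universe u

section Place
variable {k : Type u} [Field k] {n d : ℕ}

theorem sol_finite (hF : S_FINS.{u}) (hd : 2 ≤ d) (c : Cf n d → k) (hs : Strong (genf c)) :
    {E : Matrix (Fin n) (Fin n) (OM n d k) | Sol c E}.Finite :=
  hF (OM n d k) n d hd (genf c) hs
    (Matrix.of fun j i => algebraMap k (OM n d k) (ev c (bas i) j))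

theorem sum_perm (hB : S_BASE.{u}) {c : Cf n d → k} {A A' : Matrix (Fin n) (Fin n) k}
    (hA : A * A' = 1) {σ : OM n d k ≃+* OM n d k} (hσ : SymA c A A' σ)
    (Z : Finset (Matrix (Fin n) (Fin n) (OM n d k))) (hZ : ∀ E, E ∈ Z ↔ Sol c E)
    {β : Type*} [AddCommMonoid β] (g : Matrix (Fin n) (Fin n) (OM n d k) → β) :
    ∑ E ∈ Z, g (A.map (algebraMap k (OM n d k)) * E.map σ) = ∑ E ∈ Z, g E := by
  classical
  set A1 := A.map (algebraMap k (OM n d k)) with hA1
  set A2 := A'.map (algebraMap k (OM n d k)) with hA2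
  have h12 : A1 * A2 = 1 := by
    rw [hA1, hA2, ← Matrix.map_mul, hA, Matrix.map_one _ (map_zero _) (map_one _)]
  have h21 : A2 * A1 = 1 := mul_eq_one_comm.mp h12
  have hinj : Function.Injective
      (fun E : Matrix (Fin n) (Fin n) (OM n d k) => A1 * E.map σ) := by
    intro E F h
    have h1 := congrArg (fun X => A2 * X) h
    simp only [← Matrix.mul_assoc] at h1
    rw [h21, Matrix.one_mul, Matrix.one_mul] at h1
    ext i j
    have h2 := congrFun (congrFun h1 i) j
    exact σ.injective h2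
  have himg : Z.image (fun E => A1 * E.map σ) = Z := by
    apply Finset.eq_of_subset_of_card_le
    · intro x hx
      obtain ⟨E, hE, rfl⟩ := Finset.mem_image.mp hx
      exact (hZ _).mpr (sol_map hB hA hσ ((hZ _).mp hE))
    · rw [Finset.card_image_of_injective _ hinj]
  conv_rhs => rw [← himg]
  rw [Finset.sum_image (fun _ _ _ _ h => hinj h)]

variable {w : Rest n d → k}

open Classical in
/-- The value at a place (0 outside the ring). -/
noncomputable def redT (pl : Place (n := n) (d := d) w) (x : OM n d k) : k :=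
  if h : x ∈ pl.ring then pl.hom ⟨x, h⟩ else 0

theorem redT_of (pl : Place (n := n) (d := d) w) {x : OM n d k} (h : x ∈ pl.ring) :
    redT pl x = pl.hom ⟨x, h⟩ := by
  rw [redT, dif_pos h]

theorem redT_zero (pl : Place (n := n) (d := d) w) : redT pl 0 = 0 := by
  rw [redT_of pl pl.ring.zero_mem]; exact map_zero pl.hom

theorem redT_add (pl : Place (n := n) (d := d) w) {x y : OM n d k} (hx : x ∈ pl.ring)
    (hy : y ∈ pl.ring) : redT pl (x + y) = redT pl x + redT pl y := by
  rw [redT_of pl hx, redT_of pl hy, redT_of pl (pl.ring.add_mem hx hy), ← map_add]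
  rfl

theorem redT_mul (pl : Place (n := n) (d := d) w) {x y : OM n d k} (hx : x ∈ pl.ring)
    (hy : y ∈ pl.ring) : redT pl (x * y) = redT pl x * redT pl y := by
  rw [redT_of pl hx, redT_of pl hy, redT_of pl (pl.ring.mul_mem hx hy), ← map_mul]
  rfl

theorem redT_one (pl : Place (n := n) (d := d) w) : redT pl 1 = 1 := by
  rw [redT_of pl pl.ring.one_mem]; exact map_one pl.hom

theorem redT_pow (pl : Place (n := n) (d := d) w) {x : OM n d k} (hx : x ∈ pl.ring) (m : ℕ) :
    redT pl (x ^ m) = redT pl x ^ m := by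
  induction m with
  | zero => rw [pow_zero, pow_zero, redT_one]
  | succ m ih => rw [pow_succ, redT_mul pl (pl.ring.pow_mem hx m) hx, ih, pow_succ]

theorem redT_sum (pl : Place (n := n) (d := d) w) {ι : Type*} (s : Finset ι) (f : ι → OM n d k)
    (hf : ∀ i ∈ s, f i ∈ pl.ring) : redT pl (∑ i ∈ s, f i) = ∑ i ∈ s, redT pl (f i) := by
  classical
  induction s using Finset.induction_on with
  | empty => rw [Finset.sum_empty, Finset.sum_empty, redT_zero]
  | insert a s ha ih =>
    rw [Finset.sum_insert ha, Finset.sum_insert ha, redT_add pl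
      (hf a (Finset.mem_insert_self _ _))
      (pl.ring.sum_mem fun i hi => hf i (Finset.mem_insert_of_mem hi)),
      ih fun i hi => hf i (Finset.mem_insert_of_mem hi)]

theorem k_mem (pl : Place (n := n) (d := d) w) (r : k) : algebraMap k (OM n d k) r ∈ pl.ring := by
  have h := pl.mem (C r)
  rwa [← algebraMap_eq, ← IsScalarTower.algebraMap_apply k (PP n d k) (LL n d k),
    ← IsScalarTower.algebraMap_apply k (LL n d k) (OM n d k)] at h

theorem redT_k (pl : Place (n := n) (d := d) w) (r : k) :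
    redT pl (algebraMap k (OM n d k) r) = r := by
  have h := pl.eq (C r)
  have h1 : algebraMap (LL n d k) (OM n d k) (algebraMap (PP n d k) (LL n d k) (C r)) =
      algebraMap k (OM n d k) r := by
    rw [← algebraMap_eq, ← IsScalarTower.algebraMap_apply k (PP n d k) (LL n d k),
      ← IsScalarTower.algebraMap_apply k (LL n d k) (OM n d k)]
  rw [← redT_of pl (pl.mem (C r)), h1] at h
  rw [h, evalOne, eval_C]

theorem theta_mem (hO : S_OVP.{u}) [CharZero k] (c : Cf n d → k) (pl : Place (n := n) (d := d) w)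
    (P : Pol n d k) : thetaO c P ∈ pl.ring :=
  (hO k n d c w pl P).1

theorem redT_theta (hO : S_OVP.{u}) [CharZero k] (c : Cf n d → k)
    (pl : Place (n := n) (d := d) w) (P : Pol n d k) :
    redT pl (thetaO c P) = eval (glue c w) P := by
  obtain ⟨h, h1, -⟩ := hO k n d c w pl P
  rw [redT_of pl h, h1]

theorem genf_mem (hO : S_OVP.{u}) [CharZero k] (c : Cf n d → k) (pl : Place (n := n) (d := d) w)
    (a : Cf n d) : genf c a ∈ pl.ring := by
  rw [← thetaO_X]; exact theta_mem hO c pl _

theorem redT_genf (hO : S_OVP.{u}) [CharZero k] (c : Cf n d → k)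
    (pl : Place (n := n) (d := d) w) (a : Cf n d) : redT pl (genf c a) = glue c w a := by
  rw [← thetaO_X, redT_theta hO, eval_X]

/-- Elements integral over the local ring of `V` at `v = glue c w` lie in the ring of the place. -/
theorem int_mem (hO : S_OVP.{u}) [CharZero k] (c : Cf n d → k)
    (pl : Place (n := n) (d := d) w) {x : OM n d k} (hx : IsIntegral (Ov c (glue c w)) x) :
    x ∈ pl.ring := by
  have hle : Ov c (glue c w) ≤ pl.ring := by
    rw [Ov, Subring.closure_le]
    rintro y (⟨P, rfl⟩ | ⟨Q, hQ, rfl⟩)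
    · exact theta_mem hO c pl P
    · exact (hO k n d c w pl Q).2.2 hQ
  apply pl.closed
  obtain ⟨p, hp, hp0⟩ := hx
  refine ⟨p.map (Subring.inclusion hle), hp.map _, ?_⟩
  rw [Polynomial.eval₂_map]
  exact hp0

/-- The value of `ψ(E)` at a place. -/
theorem redT_psi (hB : S_BASE.{u}) (hO : S_OVP.{u}) [CharZero k] (c : Cf n d → k)
    (pl : Place (n := n) (d := d) w)
    (E : Matrix (Fin n) (Fin n) (OM n d k)) (hE : ∀ l i, E l i ∈ pl.ring)
    (G : MvPolynomial (Rest n d) k) (N : ℕ) (hN : G.totalDegree < N) (t : OM n d k)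
    (ht : t ∈ pl.ring) :
    psiE c G N t E ∈ pl.ring ∧ redT pl (psiE c G N t E) =
      eval (rest (conj (E.map (redT pl)) (E.map (redT pl))⁻¹ (glue c w))) G *
        (E.map (redT pl)).det ^ N * redT pl t := by
  have hmem := psiE_mem hB c G N t E hN pl.ring (genf_mem hO c pl) hE (k_mem pl) ht
  refine ⟨hmem, ?_⟩
  let κ : k →+* pl.ring := (algebraMap k (OM n d k)).codRestrict pl.ring (k_mem pl)
  let Er : Matrix (Fin n) (Fin n) pl.ring := Matrix.of fun l i => ⟨E l i, hE l i⟩
  let fr : Cf n d → pl.ring := fun a => ⟨genf c a, genf_mem hO c pl a⟩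
  have h := hmg_sub hB pl.ring.subtype κ G fr Er N
  have h1 : Er.map pl.ring.subtype = E := by ext l i; rfl
  have h2 : (pl.ring.subtype).comp κ = algebraMap k (OM n d k) := by ext r; rfl
  have h3 : (fun a => pl.ring.subtype (fr a)) = genf c := rfl
  rw [h1, h2, h3] at h
  have h' := hmg_sub hB pl.hom κ G fr Er N
  have h1' : Er.map pl.hom = E.map (redT pl) := by
    ext l i
    rw [Matrix.map_apply, Matrix.map_apply, redT_of pl (hE l i)]
    rfl
  have h2' : pl.hom.comp κ = RingHom.id k := by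
    ext r
    have := redT_k pl r
    rw [redT_of pl (k_mem pl r)] at this
    exact this
  have h3' : (fun a => pl.hom (fr a)) = glue c w := by
    funext a
    have := redT_genf hO c pl a
    rw [redT_of pl (genf_mem hO c pl a)] at this
    exact this
  rw [h1', h2', h3'] at h'
  rw [psiE_hmg c G N t E hN, ← h]
  have h4 : pl.ring.subtype (hmg κ G (rest (conj Er Er.adjugate fr)) Er.det N) ∈ pl.ring :=
    Subtype.mem _
  rw [redT_mul pl h4 ht, redT_of pl h4]
  have h5 : (⟨pl.ring.subtype (hmg κ G (rest (conj Er Er.adjugate fr)) Er.det N), h4⟩ : pl.ring) =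
      hmg κ G (rest (conj Er Er.adjugate fr)) Er.det N := rfl
  rw [h5, h', hmg_eq _ _ _ _ _ hN]
  have h6 : (fun i => (E.map (redT pl)).det⁻¹ *
      rest (conj (E.map (redT pl)) (E.map (redT pl)).adjugate (glue c w)) i) =
      rest (conj (E.map (redT pl)) (E.map (redT pl))⁻¹ (glue c w)) := by
    funext ρ
    exact (conj_inv (E.map (redT pl)) (glue c w) ρ.1).symm
  rw [h6]
  rfl

/-- Reductions of solutions are solutions. -/
theorem red_sol (hB : S_BASE.{u}) (hO : S_OVP.{u}) [CharZero k] (c : Cf n d → k)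
    (pl : Place (n := n) (d := d) w)
    (E : Matrix (Fin n) (Fin n) (OM n d k)) (hE : ∀ l i, E l i ∈ pl.ring) (hs : Sol c E)
    (i : Fin n) :
    ev (glue c w) (fun l => redT pl (E l i)) = E.map (redT pl) *ᵥ ev c (bas i) := by
  let fr : Cf n d → pl.ring := fun a => ⟨genf c a, genf_mem hO c pl a⟩
  let xr : Fin n → pl.ring := fun l => ⟨E l i, hE l i⟩
  have h1 := hB.2.2.1 pl.ring (OM n d k) pl.ring.subtype n d fr xr
  have h2 := hB.2.2.1 pl.ring k pl.hom n d fr xr
  have h3 : ev (genf c) (fun l => E l i) = fun j => pl.ring.subtype (ev fr xr j) := h1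
  rw [hs i] at h3
  have h4 : (fun a => pl.hom (fr a)) = glue c w := by
    funext a
    have := redT_genf hO c pl a
    rw [redT_of pl (genf_mem hO c pl a)] at this
    exact this
  have h5 : (fun l => pl.hom (xr l)) = fun l => redT pl (E l i) := by
    funext l
    rw [redT_of pl (hE l i)]
  rw [h4, h5] at h2
  rw [h2]
  funext j
  have h6 := congrFun h3 j
  have h7 : redT pl (((E *ᵥ fun j => algebraMap k (OM n d k) (ev c (bas i) j)) j)) =
      pl.hom (ev fr xr j) := by
    have h8 : pl.ring.subtype (ev fr xr j) ∈ pl.ring := Subtype.mem _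
    rw [h6, redT_of pl h8]
    rfl
  rw [← h7]
  simp only [Matrix.mulVec, dotProduct]
  rw [redT_sum pl _ _ fun l _ => pl.ring.mul_mem (hE j l) (k_mem pl _)]
  refine Finset.sum_congr rfl fun l _ => ?_
  rw [redT_mul pl (hE j l) (k_mem pl _), redT_k, Matrix.map_apply]

theorem gE_mem (pl : Place (n := n) (d := d) w) (l i : Fin n) : gE n d k l i ∈ pl.ring := by
  have := pl.mem (X (Sum.inl (l, i)))
  exact this

theorem gE_red (pl : Place (n := n) (d := d) w) : (gE n d k).map (redT pl) = 1 := by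
  ext l i
  have h := pl.eq (X (Sum.inl (l, i)))
  have h1 : algebraMap (LL n d k) (OM n d k) (algebraMap (PP n d k) (LL n d k)
      (X (Sum.inl (l, i)))) = gE n d k l i := rfl
  rw [← redT_of pl (pl.mem _), h1] at h
  rw [Matrix.map_apply, h, evalOne, eval_X, Sum.elim_inl, Matrix.one_apply]

/-- A solution over `k` for `c` itself whose conjugate has the same other coordinates is a scalar
`r` with `r^(d-1) = 1`. -/
theorem scalar_of (hB : S_BASE.{u}) (hn : 1 ≤ n) (hd : 1 ≤ d) (c : Cf n d → k) (hnd : Nondeg c)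
    (haut : ∀ A A' : Matrix (Fin n) (Fin n) k, A * A' = 1 → Fixes A c →
        ∃ r : k, A = r • (1 : Matrix (Fin n) (Fin n) k))
    (F : Matrix (Fin n) (Fin n) k) (hF : ∀ i, ev c (fun l => F l i) = F *ᵥ ev c (bas i))
    (hdet : F.det ≠ 0) (hr : rest (conj F F⁻¹ c) = rest c) :
    ∃ r : k, F = r • (1 : Matrix (Fin n) (Fin n) k) ∧ r ^ (d - 1) = 1 := by
  have hu : IsUnit F.det := isUnit_iff_ne_zero.mpr hdet
  have hcol : ∀ i, (fun l => F l i) = F *ᵥ bas i := by
    intro i; funext l
    rw [bas, Matrix.mulVec_single_one]; rfl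
  have h1 : conj F F⁻¹ c = c := by
    have h2 := eq_glue c (conj F F⁻¹ c) (by
      intro i
      rw [hB.1, ← hcol, hF, Matrix.mulVec_mulVec, Matrix.nonsing_inv_mul _ hu,
        Matrix.one_mulVec])
    rw [hr, glue_rest] at h2
    exact h2
  have hfix : Fixes F c := by
    intro x
    have h2 := hB.1 k n d c F F⁻¹ x
    rw [h1] at h2
    rw [h2, Matrix.mulVec_mulVec, Matrix.mul_nonsing_inv _ hu, Matrix.one_mulVec]
  obtain ⟨r, hr1⟩ := haut F F⁻¹ (Matrix.mul_nonsing_inv _ hu) hfix
  refine ⟨r, hr1, ?_⟩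
  have hi : 0 < n := hn
  let i : Fin n := ⟨0, hi⟩
  have hr0 : r ≠ 0 := by
    rintro rfl
    apply hdet
    rw [hr1, zero_smul]
    have : Nonempty (Fin n) := ⟨i⟩
    exact Matrix.det_zero
  have h3 : ev c (bas i) ≠ 0 := by
    intro h0
    have := congrFun (hnd _ h0) i
    rw [bas, Pi.single_eq_same] at this
    exact one_ne_zero this
  obtain ⟨j, hj⟩ := Function.ne_iff.mp h3
  have h4 := congrFun (hfix (bas i)) j
  have h5 : F *ᵥ (bas i : Fin n → k) = fun l => r * (bas i : Fin n → k) l := by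
    rw [hr1, Matrix.smul_mulVec, Matrix.one_mulVec]; rfl
  have h6 : (F *ᵥ ev c (bas i)) j = r * ev c (bas i) j := by
    rw [hr1, Matrix.smul_mulVec, Matrix.one_mulVec]; rfl
  rw [h5, ev_smul, h6] at h4
  have h7 : r ^ d = r := mul_right_cancel₀ hj h4
  have h8 : r ^ (d - 1) * r = 1 * r := by
    rw [← pow_succ, one_mul, Nat.sub_add_cancel hd, h7]
  exact mul_right_cancel₀ hr0 h8

end Place

end Pool.Agent.D0H3.SM
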